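import Pool.Agent.Q204.TS.Loc

/-! # Sums of PEPS and on-site operators -/

set_option autoImplicit false

open scoped BigOperators Matrix
open Finset

namespace Pool.Agent.Q204.SY

open Pool.Agent.TH235.PP Pool.Agent.Q204.TS

section

variable {L : ℕ} {J : Type}

lemma const_unique [NeZero L] (p : Site L → J) (h1 : ∀ x : Site L, p (x.1 - 1, x.2) = p x)
    (h2 : ∀ x : Site L, p (x.1, x.2 - 1) = p x) (x : Site L) : p x = p 0 := by
  have c1 : ∀ (n : ℕ) (y : ZMod L), p ((n : ZMod L), y) = p (0, y) := by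
    intro n y
    induction n with
    | zero => simp
    | succ n ih =>
      rw [← h1 (((n + 1 : ℕ) : ZMod L), y)]
      have e : (((n + 1 : ℕ) : ZMod L) - 1 : ZMod L) = n := by push_cast; ring
      simp only [e]
      exact ih
  have c2 : ∀ (n : ℕ), p (0, (n : ZMod L)) = p (0, 0) := by
    intro n
    induction n with
    | zero => simp
    | succ n ih =>
      rw [← h2 (0, ((n + 1 : ℕ) : ZMod L))]
      have e : (((n + 1 : ℕ) : ZMod L) - 1 : ZMod L) = n := by push_cast; ring
      simp only [e]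
      exact ih
  obtain ⟨x1, x2⟩ := x
  have e1 : ((x1.val : ℕ) : ZMod L) = x1 := ZMod.natCast_zmod_val x1
  have e2 : ((x2.val : ℕ) : ZMod L) = x2 := ZMod.natCast_zmod_val x2
  have k1 := c1 x1.val x2
  have k2 := c2 x2.val
  rw [e1] at k1
  rw [e2] at k2
  rw [k1, k2]
  rfl

end

variable {d L : ℕ} [NeZero L] {K : Type} [Fintype K] {J : Type} [Fintype J]

open Classical in
/-- the direct sum of tensors, with weights at the origin -/
noncomputable def dirT (C : J → Site L → Fin d → K → K → K → K → ℂ) (w : J → ℂ) (x : Site L)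
    (s : Fin d) (l r dn up : K × J) : ℂ :=
  if r.2 = up.2 ∧ l.2 = r.2 ∧ dn.2 = up.2 then
    (if x = 0 then w r.2 else 1) * C r.2 x s l.1 r.1 dn.1 up.1 else 0

lemma sum_split' (F : (Site L → K × J) → ℂ) :
    ∑ h, F h = ∑ hp : Site L → J, ∑ hK : Site L → K, F (fun x => (hK x, hp x)) := by
  classical
  rw [← Fintype.sum_prod_type' (fun (hp : Site L → J) (hK : Site L → K) =>
    F (fun x => (hK x, hp x)))]
  exact Fintype.sum_equiv ((Equiv.arrowProdEquivProdArrow _ _ _).trans (Equiv.prodComm _ _)) _ _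
    fun h => rfl

theorem contract_dirT (C : J → Site L → Fin d → K → K → K → K → ℂ) (w : J → ℂ) :
    contract (dirT C w) = ∑ j, w j • contract (C j) := by
  classical
  funext s
  rw [Finset.sum_apply]
  simp only [Pi.smul_apply, smul_eq_mul]
  unfold contract
  rw [sum_split']
  simp only [sum_split' (L := L) (K := K) (J := J)]
  have e1 : ∀ hp : Site L → J, (∑ hK : Site L → K, ∑ vp : Site L → J,
      ∑ vK : Site L → K, ∏ x, dirT C w x (s x) (hK (x.1 - 1, x.2), hp (x.1 - 1, x.2))
        (hK x, hp x) (vK (x.1, x.2 - 1), vp (x.1, x.2 - 1)) (vK x, vp x)) =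
      ∑ vp : Site L → J, ∑ hK : Site L → K,
      ∑ vK : Site L → K, ∏ x, dirT C w x (s x) (hK (x.1 - 1, x.2), hp (x.1 - 1, x.2))
        (hK x, hp x) (vK (x.1, x.2 - 1), vp (x.1, x.2 - 1)) (vK x, vp x) :=
    fun hp => Finset.sum_comm
  simp only [e1]
  rw [← Fintype.sum_prod_type' (fun (hp vp : Site L → J) => ∑ hK : Site L → K,
      ∑ vK : Site L → K, ∏ x, dirT C w x (s x) (hK (x.1 - 1, x.2), hp (x.1 - 1, x.2))
        (hK x, hp x) (vK (x.1, x.2 - 1), vp (x.1, x.2 - 1)) (vK x, vp x))]
  symm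
  apply Fintype.sum_of_injective (fun a : J => ((fun _ => a, fun _ => a) :
    (Site L → J) × (Site L → J)))
  · intro a b hab
    exact congrFun (congrArg Prod.fst hab) 0
  · rintro ⟨hp, vp⟩ hnot
    refine Finset.sum_eq_zero fun hK _ => Finset.sum_eq_zero fun vK _ => ?_
    by_contra hne
    rw [Finset.prod_eq_zero_iff] at hne
    push Not at hne
    have hc : ∀ x : Site L, hp x = vp x ∧ hp (x.1 - 1, x.2) = hp x ∧
        vp (x.1, x.2 - 1) = vp x := by
      intro x
      by_contra hcon
      apply hne x (mem_univ x)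
      unfold dirT
      rw [if_neg hcon]
    have hvp : vp = hp := funext fun x => (hc x).1.symm
    subst hvp
    apply hnot
    refine ⟨vp 0, ?_⟩
    have := fun x => const_unique vp (fun x => (hc x).2.1) (fun x => (hc x).2.2) x
    refine Prod.ext ?_ ?_ <;> · funext x; exact (this x).symm
  · intro a
    have key : ∀ (hK vK : Site L → K), (∏ x : Site L, dirT C w x (s x)
        (hK (x.1 - 1, x.2), a) (hK x, a) (vK (x.1, x.2 - 1), a) (vK x, a)) =
        w a * ∏ x : Site L, C a x (s x) (hK (x.1 - 1, x.2)) (hK x)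
          (vK (x.1, x.2 - 1)) (vK x) := by
      intro hK vK
      have e3 : w a = ∏ x : Site L, (if x = 0 then w a else 1) := by
        rw [Finset.prod_ite_eq' Finset.univ (0 : Site L) (fun _ => w a)]
        simp
      conv_rhs => rw [e3]
      rw [← Finset.prod_mul_distrib]
      refine Finset.prod_congr rfl fun x _ => ?_
      unfold dirT
      rw [if_pos ⟨rfl, rfl, rfl⟩]
    simp only [key]
    simp only [← Finset.mul_sum]

/-- On-site operators act on the tensors. -/
theorem contract_onsite (u : Matrix (Fin d) (Fin d) ℂ) (C : Site L → Fin d → K → K → K → K → ℂ) :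
    contract (fun x s l r dn up => ∑ t, u s t * C x t l r dn up) =
      tp (V := Site L) (fun _ => u) *ᵥ contract C := by
  classical
  funext s
  unfold contract Matrix.mulVec dotProduct tp
  simp only [Finset.mul_sum]
  rw [Finset.sum_comm]
  conv_rhs => rw [Finset.sum_comm]
  rw [Finset.sum_comm]
  refine Finset.sum_congr rfl fun h _ => ?_
  conv_rhs => rw [Finset.sum_comm]
  refine Finset.sum_congr rfl fun v _ => ?_
  rw [Finset.prod_univ_sum]
  rw [Fintype.piFinset_univ]
  refine Finset.sum_congr rfl fun t _ => ?_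
  rw [Finset.prod_mul_distrib]

theorem peps_sum {D : ℕ} {ψ : (Site L → Fin d) → ℂ} (hψ : IsPEPS D ψ)
    (w : J → ℂ) (u : J → Matrix (Fin d) (Fin d) ℂ) :
    IsPEPS (D * Fintype.card J) (∑ j, w j • (tp (V := Site L) (fun _ => u j) *ᵥ ψ)) := by
  obtain ⟨C, rfl⟩ := hψ
  have h1 := contract_dirT (fun (j : J) (x : Site L) (s : Fin d) (l r dn up : Fin D) =>
    ∑ t, u j s t * C x t l r dn up) w
  simp only [contract_onsite] at h1
  rw [← h1]
  have h2 := isPEPS_contract (dirT (fun (j : J) (x : Site L) (s : Fin d) (l r dn up : Fin D) =>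
    ∑ t, u j s t * C x t l r dn up) w)
  rwa [Fintype.card_prod, Fintype.card_fin] at h2

/-! ### tensor products of one-site operators -/

lemma tp_mul {V : Type*} [Fintype V] [DecidableEq V] (A B : Matrix (Fin d) (Fin d) ℂ) :
    tp (V := V) (fun _ => A) * tp (V := V) (fun _ => B) = tp (V := V) (fun _ => A * B) := by
  classical
  ext s t
  rw [Matrix.mul_apply]
  unfold tp
  simp only [Matrix.mul_apply]
  rw [Finset.prod_univ_sum, Fintype.piFinset_univ]
  refine Finset.sum_congr rfl fun r _ => ?_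
  rw [Finset.prod_mul_distrib]

lemma tp_one {V : Type*} [Fintype V] [DecidableEq V] :
    tp (V := V) (fun _ => (1 : Matrix (Fin d) (Fin d) ℂ)) = 1 := by
  classical
  ext s t
  unfold tp
  rw [Matrix.one_apply]
  by_cases h : s = t
  · subst h
    simp
  · rw [if_neg h]
    obtain ⟨v, hv⟩ := Function.ne_iff.1 h
    exact Finset.prod_eq_zero (mem_univ v) (Matrix.one_apply_ne hv)

lemma tp_star {V : Type*} [Fintype V] (A : Matrix (Fin d) (Fin d) ℂ) :
    (tp (V := V) (fun _ => A))ᴴ = tp (V := V) (fun _ => Aᴴ) := by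
  ext s t
  rw [Matrix.conjTranspose_apply]
  change star (∏ v, A (t v) (s v)) = ∏ v, Aᴴ (s v) (t v)
  rw [star_prod]
  rfl

lemma nr_unitary {n : Type*} [Fintype n] [DecidableEq n] (T : Matrix n n ℂ) (hT : Tᴴ * T = 1)
    (f : n → ℂ) : nr (T *ᵥ f) = nr f := by
  have key : normSq (T *ᵥ f) = normSq f := by
    have e : ∀ g : n → ℂ, ((normSq g : ℝ) : ℂ) = star g ⬝ᵥ g := by
      intro g
      unfold normSq dotProduct
      push_cast
      refine Finset.sum_congr rfl fun s _ => ?_
      rw [Pi.star_apply, RCLike.star_def, mul_comm, Complex.mul_conj, Complex.normSq_eq_norm_sq]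
      push_cast
      rfl
    have h1 : ((normSq (T *ᵥ f) : ℝ) : ℂ) = ((normSq f : ℝ) : ℂ) := by
      rw [e, e, Matrix.star_mulVec, ← Matrix.dotProduct_mulVec, Matrix.mulVec_mulVec, hT,
        Matrix.one_mulVec]
    exact_mod_cast h1
  have h : nr (T *ᵥ f) ^ 2 = nr f ^ 2 := by rw [nr_sq, nr_sq, key]
  exact (sq_eq_sq₀ (nr_nonneg _) (nr_nonneg _)).1 h

end Pool.Agent.Q204.SY
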