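import Pool.Agent.Q204.SY.Fin

/-! # Families -/

set_option autoImplicit false

open scoped BigOperators Matrix
open Finset

namespace Pool.Agent.Q204.SY

open Pool.Agent.TH235.PP Pool.Agent.Q204.TS
  Pool.Agent.Results.MP_953b23_mp.OverlapBoosting
  Pool.Agent.Results.MP_953b23_mp.ThermalCriterion Pool.Agent.Results.MP_953b23_mp.EveryScale

/-- `B` commutes with the on-site symmetry `U` and conserves the charge `q`. -/
def IsSym {d R : ℕ} {G : Type} (U : G → Matrix (Fin d) (Fin d) ℂ) (q : Fin d → ℕ)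
    (B : BoxOp d R) : Prop :=
  (∀ g, tp (V := Fin R × Fin R) (fun _ => U g) * B = B * tp (V := Fin R × Fin R) (fun _ => U g)) ∧
  ∀ p p', B p p' ≠ 0 → ∑ x, q (p x) = ∑ x, q (p' x)

/-- For all large `L` there is a PEPS of bond dimension at most `exp (C * g L)` within `δ L` of
`Ψ L`, in the same symmetry sectors as `Ψ L`, with the same tensor at all sites but one. -/
def SectorAt {d : ℕ} {G : Type} (U : G → Matrix (Fin d) (Fin d) ℂ) (q : Fin d → ℕ)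
    (Ψ : ∀ L : ℕ, (Site L → Fin d) → ℂ) (g : ℕ → ℝ) (C : ℝ) (δ : ℕ → ℝ) : Prop :=
  ∃ L₀ : ℕ, ∀ (L : ℕ) [NeZero L], L₀ ≤ L → ∃ (D : ℕ) (ψ : (Site L → Fin d) → ℂ),
    (D : ℝ) ≤ Real.exp (C * g L) ∧ IsTIButOne D ψ ∧ SameSectors U q (Ψ L) ψ ∧
      Real.sqrt (normSq (ψ - Ψ L)) ≤ δ L

open scoped Matrix.Norms.L2Operator in
/-- For all large `L` there is a locally purified mixed state of bond dimension at most
`exp (C * g L)` whose expectation of every translate of every Hermitian box operator of norm at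
most one which commutes with `U` and conserves `q` is within `κ / L²` of that of `Ψ L`. -/
def SymLocalAt {d : ℕ} {G : Type} (R : ℕ) (U : G → Matrix (Fin d) (Fin d) ℂ) (q : Fin d → ℕ)
    (Ψ : ∀ L : ℕ, (Site L → Fin d) → ℂ) (g : ℕ → ℝ) (C κ : ℝ) : Prop :=
  ∃ L₀ : ℕ, ∀ (L : ℕ) [NeZero L], L₀ ≤ L →
    ∃ (a D : ℕ) (X : (Site L → Fin a) → (Site L → Fin d) → ℂ),
      (D : ℝ) ≤ Real.exp (C * g L) ∧ IsPurified D X ∧ 0 < ∑ t, normSq (X t) ∧
        ∀ (u : Site L) (B : BoxOp d R), ‖B‖ ≤ 1 → B.IsHermitian → IsSym U q B →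
          ‖(∑ t, ip (X t) (term B u *ᵥ X t)) / ((∑ t, normSq (X t) : ℝ) : ℂ) -
            ip (Ψ L) (term B u *ᵥ Ψ L)‖ ≤ κ / (L : ℝ) ^ 2

section

variable {d R : ℕ} {h : BoxOp d R} {Δ : ℝ} {Ψ : ∀ L : ℕ, (Site L → Fin d) → ℂ} {g : ℕ → ℝ}
  {G : Type} [Group G] [Fintype G] {U : G → Matrix (Fin d) (Fin d) ℂ} {q : Fin d → ℕ}

omit [Group G] [Fintype G] in
theorem same_self (hF : GappedFamily h Δ Ψ) (hsym : IsSym U q h) :
    ∃ L₀ : ℕ, ∀ (L : ℕ) [NeZero L], L₀ ≤ L → SameSectors U q (Ψ L) (Ψ L) := by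
  obtain ⟨L₁, hL₁⟩ := hF.ground
  refine ⟨max R L₁, ?_⟩
  intro L _ hL
  simp only [max_le_iff] at hL
  obtain ⟨hR, ha⟩ := hL
  obtain ⟨hn, hgr⟩ := hL₁ L ha
  refine ⟨fun k => ?_, fun a => ?_, ?_⟩
  · obtain ⟨c, hc⟩ := eig hR (U k) h (hsym.1 k) hgr
    exact ⟨c, hc, hc⟩
  · have hti := Pool.Agent.Q204.LP.ti_of_gapped h Δ (Ψ L) hgr
    obtain ⟨c, hc⟩ := hti (-a)
    have : shv a (Ψ L) = c • Ψ L := by
      funext s
      have := hc s
      unfold shv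
      simp only [sub_eq_add_neg]
      exact this
    exact ⟨c, this, this⟩
  · obtain ⟨Q, hQ⟩ := charge_exists hR q h hsym.2 hgr (nr_one (Ψ L) hn)
    exact ⟨Q, fun s hs => hQ s (by tauto)⟩

theorem approx_to_sector (hF : GappedFamily h Δ Ψ) (hsym : IsSym U q h)
    (hmul : ∀ g h, U (g * h) = U g * U h) (hU : ∀ g, (U g)ᴴ * U g = 1)
    (hUq : ∀ g a b, U g a b ≠ 0 → q a = q b)
    (hg : ∃ L₁ : ℕ, ∀ L, L₁ ≤ L → Real.log L ≤ g L) {C : ℝ} {δ : ℕ → ℝ}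
    (hA : ApproxAt Ψ g C δ) : ∃ C', SectorAt U q Ψ g C' δ := by
  obtain ⟨m, hm⟩ : ∃ m : ℕ, ∀ a, q a ≤ m := ⟨∑ a, q a, fun a =>
    Finset.single_le_sum (f := q) (fun _ _ => Nat.zero_le _) (mem_univ a)⟩
  obtain ⟨L₀, hL₀⟩ := same_self hF hsym
  obtain ⟨L₁, hL₁⟩ := hF.ground
  obtain ⟨L₂, hL₂⟩ := hA
  obtain ⟨L₃, hL₃⟩ := hg
  set W : ℝ := (Fintype.card G : ℝ) * (m + 1) with hW
  have hW1 : 1 ≤ W := by
    have h1 : (1 : ℝ) ≤ Fintype.card G := by exact_mod_cast Fintype.card_pos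
    have h2 : (0 : ℝ) ≤ m := Nat.cast_nonneg m
    rw [hW]
    nlinarith
  refine ⟨|C| + 4 + Real.log W, max 3 (max (max L₀ L₁) (max L₂ L₃)), ?_⟩
  intro L _ hL
  simp only [max_le_iff] at hL
  obtain ⟨h3, ⟨h0, ha⟩, hb, hc⟩ := hL
  obtain ⟨hn, hgr⟩ := hL₁ L ha
  obtain ⟨D, ψ, hD, hψ, herr⟩ := hL₂ L hb
  obtain ⟨ψ', h1, h2, h4⟩ := one_torus U hmul hU q m hm hUq hψ (nr_one (Ψ L) hn) (hL₀ L h0)
  rw [sqrt_normSq] at herr
  refine ⟨_, ψ', ?_, h1, h4, by rw [sqrt_normSq]; exact h2.trans herr⟩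
  have hgl := hL₃ L hc
  have hl1 := log_ge_one h3
  have hLpos : (0 : ℝ) < L := by
    have : 0 < L := by omega
    exact_mod_cast this
  have hL1 : (1 : ℝ) ≤ L := by
    have : 1 ≤ L := by omega
    exact_mod_cast this
  have hγ1 : 1 ≤ g L := hl1.trans hgl
  push_cast
  have e1 : (L : ℝ) ^ 4 ≤ Real.exp (4 * g L) := by
    rw [← Real.exp_log hLpos, ← Real.exp_nat_mul]
    refine Real.exp_le_exp.2 ?_
    push_cast
    linarith
  have e2 : W ≤ Real.exp (Real.log W * g L) := by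
    conv_lhs => rw [← Real.exp_log (show 0 < W by linarith)]
    refine Real.exp_le_exp.2 ?_
    have := Real.log_nonneg hW1
    nlinarith
  have e3 : (m : ℝ) * (L : ℝ) ^ 2 + 1 ≤ (m + 1) * (L : ℝ) ^ 2 := by nlinarith
  calc (D : ℝ) * (Fintype.card G) * (m * (L : ℝ) ^ 2 + 1) * (L : ℝ) ^ 2
      ≤ (D : ℝ) * (Fintype.card G) * ((m + 1) * (L : ℝ) ^ 2) * (L : ℝ) ^ 2 := by
        gcongr
    _ = (D : ℝ) * W * (L : ℝ) ^ 4 := by rw [hW]; ring
    _ ≤ Real.exp (|C| * g L) * Real.exp (Real.log W * g L) * Real.exp (4 * g L) := by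
        refine mul_le_mul (mul_le_mul (hD.trans (Real.exp_le_exp.2 ?_)) e2 (by linarith)
          (by positivity)) e1 (by positivity) (by positivity)
        exact mul_le_mul_of_nonneg_right (le_abs_self C) (by linarith)
    _ = Real.exp ((|C| + 4 + Real.log W) * g L) := by
        rw [← Real.exp_add, ← Real.exp_add]
        congr 1
        ring

end

section

open scoped Matrix.Norms.L2Operator

variable {d L : ℕ} [NeZero L]

lemma energy_of_local' {R : ℕ} (h : BoxOp d R) (Ψ : (Site L → Fin d) → ℂ) {a : ℕ}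
    (X : (Site L → Fin a) → (Site L → Fin d) → ℂ) (hX : 0 < ∑ t, normSq (X t)) (κ : ℝ)
    (hloc : ∀ u : Site L, 0 < ‖h‖ →
          ‖(∑ t, ip (X t) (term ((((‖h‖ : ℝ) : ℂ)⁻¹) • h) u *ᵥ X t)) /
            ((∑ t, normSq (X t) : ℝ) : ℂ) -
            ip Ψ (term ((((‖h‖ : ℝ) : ℂ)⁻¹) • h) u *ᵥ Ψ)‖ ≤ κ / (L : ℝ) ^ 2) :
    ∑ t, (ip (X t) (ham h L *ᵥ X t)).re ≤
      (energy (ham h L) Ψ + κ * ‖h‖) * ∑ t, normSq (X t) := by
  have hL : (0 : ℝ) < L := by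
    have := NeZero.pos L
    exact_mod_cast this
  set N : ℝ := ∑ t, normSq (X t) with hN
  have key : ∀ u : Site L, ‖(∑ t, ip (X t) (term h u *ᵥ X t)) / ((N : ℝ) : ℂ) -
      ip Ψ (term h u *ᵥ Ψ)‖ ≤ κ * ‖h‖ / (L : ℝ) ^ 2 := by
    intro u
    rcases (norm_nonneg h).lt_or_eq with hh | hh
    · have hc : (‖h‖ : ℂ) ≠ 0 := by exact_mod_cast hh.ne'
      have h1 := hloc u hh
      have e1 : ∀ v : (Site L → Fin d) → ℂ, ip v (term h u *ᵥ v) =
          (‖h‖ : ℂ) * ip v (term (((‖h‖ : ℝ) : ℂ)⁻¹ • h) u *ᵥ v) := by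
        intro v
        rw [term_smul, Matrix.smul_mulVec, ip_smul_right, ← mul_assoc, mul_inv_cancel₀ hc, one_mul]
      simp only [e1]
      rw [← Finset.mul_sum, mul_div_assoc, ← mul_sub, norm_mul, Complex.norm_real, norm_norm]
      calc ‖h‖ * _ ≤ ‖h‖ * (κ / (L : ℝ) ^ 2) := mul_le_mul_of_nonneg_left h1 hh.le
        _ = _ := by ring
    · have h0 : h = 0 := norm_eq_zero.1 hh.symm
      have h1 : term h u = 0 := by
        rw [h0]
        have := term_smul (0 : ℂ) (0 : BoxOp d R) u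
        simpa using this
      rw [h1, ← hh]
      simp [ip]
  have e2 : ∀ v : (Site L → Fin d) → ℂ, (ip v (ham h L *ᵥ v)).re =
      ∑ u : Site L, (ip v (term h u *ᵥ v)).re := by
    intro v
    unfold ham
    rw [Matrix.sum_mulVec]
    have : ip v (∑ u : Site L, term h u *ᵥ v) = ∑ u : Site L, ip v (term h u *ᵥ v) := by
      unfold ip
      simp only [Finset.sum_apply, Finset.mul_sum]
      rw [Finset.sum_comm]
    rw [this, Complex.re_sum]
  simp only [e2]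
  rw [Finset.sum_comm]
  unfold energy
  rw [e2 Ψ]
  have e3 : ∀ u : Site L, ∑ t, (ip (X t) (term h u *ᵥ X t)).re ≤
      ((ip Ψ (term h u *ᵥ Ψ)).re + κ * ‖h‖ / (L : ℝ) ^ 2) * N := by
    intro u
    have h1 := (Complex.abs_re_le_norm _).trans (key u)
    rw [Complex.sub_re, Complex.div_ofReal_re, Complex.re_sum] at h1
    have h2 := (abs_le.1 h1).2
    have h3 : (∑ t, (ip (X t) (term h u *ᵥ X t)).re) / N ≤
        (ip Ψ (term h u *ᵥ Ψ)).re + κ * ‖h‖ / (L : ℝ) ^ 2 := by linarith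
    rwa [div_le_iff₀ hX] at h3
  refine (Finset.sum_le_sum fun u _ => e3 u).trans (le_of_eq ?_)
  rw [← Finset.sum_mul, Finset.sum_add_distrib]
  congr 2
  rw [Finset.sum_const, Finset.card_univ, Fintype.card_prod, ZMod.card, nsmul_eq_mul]
  push_cast
  field_simp

end

section

open scoped Matrix.Norms.L2Operator

variable {d R : ℕ} {h : BoxOp d R} {Δ : ℝ} {Ψ : ∀ L : ℕ, (Site L → Fin d) → ℂ} {g : ℕ → ℝ}
  {G : Type} {U : G → Matrix (Fin d) (Fin d) ℂ} {q : Fin d → ℕ}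

lemma sym_smul (hsym : IsSym U q h) (c : ℂ) : IsSym U q (c • h) := by
  refine ⟨fun k => ?_, fun p p' hp => hsym.2 p p' ?_⟩
  · rw [Matrix.mul_smul, Matrix.smul_mul, hsym.1 k]
  · intro h0
    apply hp
    rw [Matrix.smul_apply, h0, smul_zero]

theorem symlocal_to_low (hF : GappedFamily h Δ Ψ) (hsym : IsSym U q h)
    (hg : ∃ L₁ : ℕ, ∀ L, L₁ ≤ L → Real.log L ≤ g L) {C κ : ℝ} (hκ : κ * ‖h‖ < Δ)
    (hA : SymLocalAt R U q Ψ g C κ) : ∃ C, LowAt h Δ Ψ g C := by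
  obtain ⟨L₂, hL₂⟩ := hA
  obtain ⟨L₃, hL₃⟩ := hg
  have hΔ := hF.gap_pos
  set η : ℝ := 1 - κ * ‖h‖ / Δ with hη
  have hη0 : 0 < η := by
    rw [hη, sub_pos, div_lt_one hΔ]
    exact hκ
  refine ⟨|C| + |Real.log η|, max 3 (max L₂ L₃), ?_⟩
  intro L _ hL
  simp only [max_le_iff] at hL
  obtain ⟨h3, hb, hc⟩ := hL
  obtain ⟨a, D, X, h1, h2, h4, h5⟩ := hL₂ L hb
  have hγ1 : 1 ≤ g L := (log_ge_one h3).trans (hL₃ L hc)
  have hAl := abs_nonneg (Real.log η)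
  have hAC := abs_nonneg C
  refine ⟨a, D, X, h1.trans (Real.exp_le_exp.2 ?_), h2, h4, ?_⟩
  · exact mul_le_mul_of_nonneg_right (by linarith [le_abs_self C]) (by linarith)
  · refine (energy_of_local' h (Ψ L) X h4 κ fun u hh => h5 u _ ?_ ?_ (sym_smul hsym _)).trans ?_
    · rw [norm_smul, norm_inv, Complex.norm_real, norm_norm, inv_mul_cancel₀ hh.ne']
    · unfold Matrix.IsHermitian
      rw [Matrix.conjTranspose_smul, hF.herm.eq]
      congr 1
      rw [RCLike.star_def, map_inv₀, Complex.conj_ofReal]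
    refine mul_le_mul_of_nonneg_right ?_ h4.le
    have h8 : Real.exp (-((|C| + |Real.log η|) * g L)) ≤ η := by
      conv_rhs => rw [← Real.exp_log hη0]
      refine Real.exp_le_exp.2 ?_
      have h9 : |Real.log η| * 1 ≤ (|C| + |Real.log η|) * g L :=
        mul_le_mul (by linarith) hγ1 zero_le_one (by linarith)
      linarith [neg_abs_le (Real.log η)]
    have h9 : κ * ‖h‖ = Δ * (1 - η) := by
      rw [hη]; field_simp; ring
    rw [h9]
    have := mul_le_mul_of_nonneg_left h8 hΔ.le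
    linarith

end

end Pool.Agent.Q204.SY
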