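import Pool.Agent.Q204.SY.Sym
import Pool.Agent.TH235.PQ.Ops

/-! # Symmetries of the interaction -/

set_option autoImplicit false

open scoped BigOperators Matrix
open Finset

namespace Pool.Agent.Q204.SY

open Pool.Agent.TH235.PP Pool.Agent.TH235.PQ Pool.Agent.Q204.TS
  Pool.Agent.Results.MP_953b23_mp.OverlapBoosting
  Pool.Agent.Results.MP_953b23_mp.ThermalCriterion Pool.Agent.Results.MP_953b23_mp.EveryScale

section comm

variable {d L R : ℕ} [NeZero L]

open Classical in
lemma prod_split (hL : R ≤ L) (u : Site L) (F : Site L → ℂ) :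
    ∏ v, F v = (∏ x : Fin R × Fin R, F (sh u x)) *
      ∏ v, if (∃ x : Fin R × Fin R, sh u x = v) then 1 else F v := by
  have hinj := sh_inj hL u
  have h1 : ∏ x : Fin R × Fin R, F (sh u x) =
      ∏ v, if (∃ x : Fin R × Fin R, sh u x = v) then F v else 1 := by
    refine Fintype.prod_of_injective (sh u) hinj _ _ ?_ ?_
    · intro v hv
      rw [if_neg (show ¬ ∃ x : Fin R × Fin R, sh u x = v from fun h => hv h)]
    · intro x
      rw [if_pos ⟨x, rfl⟩]
  rw [h1, ← Finset.prod_mul_distrib]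
  refine Finset.prod_congr rfl fun v _ => ?_
  split_ifs <;> simp

open Classical in
/-- the factor from outside of the box -/
noncomputable def outF (R : ℕ) (A : Matrix (Fin d) (Fin d) ℂ) (u : Site L) (s t : Site L → Fin d) :
    ℂ := ∏ v, if (∃ x : Fin R × Fin R, sh u x = v) then 1 else A (s v) (t v)

open Classical in
/-- change a configuration in the box -/
noncomputable def exB (u : Site L) (s : Site L → Fin d) (p : Fin R × Fin R → Fin d) :
    Site L → Fin d := fun v =>
  if hv : ∃ x : Fin R × Fin R, sh u x = v then p hv.choose else s v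

lemma exB_in (hL : R ≤ L) (u : Site L) (s : Site L → Fin d) (p : Fin R × Fin R → Fin d)
    (x : Fin R × Fin R) : exB u s p (sh u x) = p x := by
  have hv : ∃ x' : Fin R × Fin R, sh u x' = sh u x := ⟨x, rfl⟩
  unfold exB
  rw [dif_pos hv, sh_inj hL u hv.choose_spec]

lemma exB_out (u : Site L) (s : Site L → Fin d) (p : Fin R × Fin R → Fin d) (v : Site L)
    (hv : ∀ x : Fin R × Fin R, sh u x ≠ v) : exB u s p v = s v := by
  unfold exB
  rw [dif_neg (by push Not; exact hv)]

lemma tp_term (hL : R ≤ L) (A : Matrix (Fin d) (Fin d) ℂ) (h : BoxOp d R) (u : Site L)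
    (s t : Site L → Fin d) :
    (tp (V := Site L) (fun _ => A) * term h u) s t = outF R A u s t *
      (tp (V := Fin R × Fin R) (fun _ => A) * h) (fun x => s (sh u x)) (fun x => t (sh u x)) := by
  classical
  rw [Matrix.mul_apply, Matrix.mul_apply, Finset.mul_sum]
  symm
  refine Fintype.sum_of_injective (exB u t) ?_ _ _ ?_ ?_
  · intro p p' hpp
    funext x
    rw [← exB_in hL u t p x, ← exB_in hL u t p' x, hpp]
  · intro w hw
    have : term h u w t = 0 := by
      unfold term
      rw [if_neg]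
      intro hall
      apply hw
      refine ⟨fun x => w (sh u x), ?_⟩
      funext v
      by_cases hv : ∃ x : Fin R × Fin R, sh u x = v
      · obtain ⟨x, rfl⟩ := hv
        exact exB_in hL u t (fun x => w (sh u x)) x
      · push Not at hv
        exact (exB_out u t (fun x => w (sh u x)) v hv).trans (hall v hv).symm
    rw [this, mul_zero]
  · intro p
    have e1 : term h u (exB u t p) t = h p (fun x => t (sh u x)) := by
      unfold term
      rw [if_pos (fun v hv => exB_out u t p v hv)]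
      simp only [exB_in hL]
    have e2 : tp (V := Site L) (fun _ => A) s (exB u t p) =
        tp (V := Fin R × Fin R) (fun _ => A) (fun x => s (sh u x)) p * outF R A u s t := by
      unfold tp
      rw [prod_split hL u (fun v => A (s v) (exB u t p v))]
      simp only [exB_in hL]
      congr 1
      unfold outF
      refine Finset.prod_congr rfl fun v _ => ?_
      by_cases hv : ∃ x : Fin R × Fin R, sh u x = v
      · rw [if_pos hv, if_pos hv]
      · rw [if_neg hv, if_neg hv, exB_out u t p v (by push Not at hv; exact hv)]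
    rw [e1, e2]
    ring

lemma term_tp (hL : R ≤ L) (A : Matrix (Fin d) (Fin d) ℂ) (h : BoxOp d R) (u : Site L)
    (s t : Site L → Fin d) :
    (term h u * tp (V := Site L) (fun _ => A)) s t = outF R A u s t *
      (h * tp (V := Fin R × Fin R) (fun _ => A)) (fun x => s (sh u x)) (fun x => t (sh u x)) := by
  classical
  rw [Matrix.mul_apply, Matrix.mul_apply, Finset.mul_sum]
  symm
  refine Fintype.sum_of_injective (exB u s) ?_ _ _ ?_ ?_
  · intro p p' hpp
    funext x
    rw [← exB_in hL u s p x, ← exB_in hL u s p' x, hpp]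
  · intro w hw
    have : term h u s w = 0 := by
      unfold term
      rw [if_neg]
      intro hall
      apply hw
      refine ⟨fun x => w (sh u x), ?_⟩
      funext v
      by_cases hv : ∃ x : Fin R × Fin R, sh u x = v
      · obtain ⟨x, rfl⟩ := hv
        exact exB_in hL u s (fun x => w (sh u x)) x
      · push Not at hv
        exact (exB_out u s (fun x => w (sh u x)) v hv).trans (hall v hv)
    rw [this, zero_mul]
  · intro p
    have e1 : term h u s (exB u s p) = h (fun x => s (sh u x)) p := by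
      unfold term
      rw [if_pos (fun v hv => (exB_out u s p v hv).symm)]
      simp only [exB_in hL]
    have e2 : tp (V := Site L) (fun _ => A) (exB u s p) t =
        tp (V := Fin R × Fin R) (fun _ => A) p (fun x => t (sh u x)) * outF R A u s t := by
      unfold tp
      rw [prod_split hL u (fun v => A (exB u s p v) (t v))]
      simp only [exB_in hL]
      congr 1
      unfold outF
      refine Finset.prod_congr rfl fun v _ => ?_
      by_cases hv : ∃ x : Fin R × Fin R, sh u x = v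
      · rw [if_pos hv, if_pos hv]
      · rw [if_neg hv, if_neg hv, exB_out u s p v (by push Not at hv; exact hv)]
    rw [e1, e2]
    ring

lemma ham_comm (hL : R ≤ L) (A : Matrix (Fin d) (Fin d) ℂ) (h : BoxOp d R)
    (hA : tp (V := Fin R × Fin R) (fun _ => A) * h = h * tp (V := Fin R × Fin R) (fun _ => A)) :
    tp (V := Site L) (fun _ => A) * ham h L = ham h L * tp (V := Site L) (fun _ => A) := by
  unfold ham
  rw [Finset.mul_sum, Finset.sum_mul]
  refine Finset.sum_congr rfl fun u _ => ?_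
  ext s t
  rw [tp_term hL, term_tp hL, hA]

lemma eig (hL : R ≤ L) (A : Matrix (Fin d) (Fin d) ℂ) (h : BoxOp d R)
    (hA : tp (V := Fin R × Fin R) (fun _ => A) * h = h * tp (V := Fin R × Fin R) (fun _ => A))
    {Δ : ℝ} {Ψ : (Site L → Fin d) → ℂ} (hg : IsGappedGround (ham h L) Δ Ψ) :
    ∃ c : ℂ, ons A Ψ = c • Ψ := by
  obtain ⟨E, h1, h2, -⟩ := hg
  apply h2
  unfold ons
  change ham h L *ᵥ (tp (V := Site L) (fun _ => A) *ᵥ Ψ) = _
  rw [Matrix.mulVec_mulVec, ← ham_comm hL A h hA, ← Matrix.mulVec_mulVec]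
  change _ *ᵥ ((ham h L).mulVec Ψ) = _
  rw [h1, Matrix.mulVec_smul]

lemma tp_diagonal {V : Type*} [Fintype V] [DecidableEq V] (φ : Fin d → ℂ) :
    tp (V := V) (fun _ => Matrix.diagonal φ) =
      Matrix.diagonal fun s : V → Fin d => ∏ v, φ (s v) := by
  ext s t
  by_cases h : s = t
  · subst h
    rw [Matrix.diagonal_apply_eq]
    unfold tp
    exact Finset.prod_congr rfl fun x _ => Matrix.diagonal_apply_eq _ _
  · rw [Matrix.diagonal_apply_ne _ h]
    obtain ⟨v, hv⟩ := Function.ne_iff.1 h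
    exact Finset.prod_eq_zero (mem_univ v) (Matrix.diagonal_apply_ne _ hv)

lemma charge_exists (hL : R ≤ L) (q : Fin d → ℕ) (h : BoxOp d R)
    (hq : ∀ p p', h p p' ≠ 0 → ∑ x, q (p x) = ∑ x, q (p' x))
    {Δ : ℝ} {Ψ : (Site L → Fin d) → ℂ} (hg : IsGappedGround (ham h L) Δ Ψ) (hn : nr Ψ = 1) :
    ∃ Q : ℕ, ∀ s, Ψ s ≠ 0 → chg q s = Q := by
  classical
  obtain ⟨m, hm⟩ : ∃ m : ℕ, ∀ a, q a ≤ m := ⟨∑ a, q a, fun a =>
    Finset.single_le_sum (f := q) (fun _ _ => Nat.zero_le _) (mem_univ a)⟩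
  set M : ℕ := m * L ^ 2 + 1 with hM
  have hM0 : M ≠ 0 := by omega
  set z : ℂ := Complex.exp (2 * Real.pi * Complex.I / M) with hz
  have hz1 : IsPrimitiveRoot z M := Complex.isPrimitiveRoot_exp M hM0
  obtain ⟨c, hc⟩ := eig hL (Matrix.diagonal fun a => z ^ q a) h (by
    rw [tp_diagonal]
    ext p p'
    rw [Matrix.diagonal_mul, Matrix.mul_diagonal, Finset.prod_pow_eq_pow_sum,
      Finset.prod_pow_eq_pow_sum]
    by_cases h0 : h p p' = 0
    · rw [h0]; ring
    · rw [hq p p' h0]; ring) hg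
  have hc' : ∀ s, z ^ chg q s * Ψ s = c * Ψ s := by
    intro s
    have h1 := congrFun hc s
    unfold ons at h1
    rw [tp_diag, Finset.prod_pow_eq_pow_sum] at h1
    exact h1
  have hex : ∃ s, Ψ s ≠ 0 := by
    by_contra hcon
    push Not at hcon
    have : normSq Ψ = 0 := by
      unfold normSq
      refine Finset.sum_eq_zero fun s _ => ?_
      rw [hcon s]
      simp
    rw [← nr_sq, hn] at this
    norm_num at this
  obtain ⟨s₀, hs₀⟩ := hex
  refine ⟨chg q s₀, fun s hs => ?_⟩
  have h1 := mul_right_cancel₀ hs (hc' s)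
  have h2 := mul_right_cancel₀ hs₀ (hc' s₀)
  exact hz1.pow_inj (by have := chg_le hm s; omega) (by have := chg_le hm s₀; omega)
    (h1.trans h2.symm)

end comm

/-! ### the statements -/

/-- `ψ` lies in the same symmetry sectors as `Ψ` -/
def SameSectors {d L : ℕ} [NeZero L] {G : Type} (U : G → Matrix (Fin d) (Fin d) ℂ)
    (q : Fin d → ℕ) (Ψ ψ : (Site L → Fin d) → ℂ) : Prop :=
  (∀ g, ∃ c : ℂ, tp (V := Site L) (fun _ => U g) *ᵥ Ψ = c • Ψ ∧
    tp (V := Site L) (fun _ => U g) *ᵥ ψ = c • ψ) ∧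
  (∀ a : Site L, ∃ c : ℂ, shv a Ψ = c • Ψ ∧ shv a ψ = c • ψ) ∧
  ∃ Q : ℕ, ∀ s, (Ψ s ≠ 0 ∨ ψ s ≠ 0) → ∑ x, q (s x) = Q

theorem one_torus {d L : ℕ} [NeZero L] {G : Type} [Group G] [Fintype G]
    (U : G → Matrix (Fin d) (Fin d) ℂ) (hmul : ∀ g h, U (g * h) = U g * U h)
    (hU : ∀ g, (U g)ᴴ * U g = 1) (q : Fin d → ℕ) (m : ℕ) (hm : ∀ a, q a ≤ m)
    (hUq : ∀ g a b, U g a b ≠ 0 → q a = q b) {D : ℕ} {ψ Ψ : (Site L → Fin d) → ℂ}
    (hψ : IsPEPS D ψ) (hn : nr Ψ = 1) (hs : SameSectors U q Ψ Ψ) :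
    ∃ ψ', IsTIButOne (D * Fintype.card G * (m * L ^ 2 + 1) * L ^ 2) ψ' ∧
      nr (ψ' - Ψ) ≤ nr (ψ - Ψ) ∧ SameSectors U q Ψ ψ' := by
  obtain ⟨h1, h2, Q, h3⟩ := hs
  choose χ hχ using fun g => (show ∃ c : ℂ, ons (U g) Ψ = c • Ψ by
    obtain ⟨c, hc, -⟩ := h1 g
    exact ⟨c, hc⟩)
  choose θ hθ using fun a => (show ∃ c : ℂ, shv a Ψ = c • Ψ by
    obtain ⟨c, hc, -⟩ := h2 a
    exact ⟨c, hc⟩)
  have h3' : ∀ s, Ψ s ≠ 0 → chg q s = Q := fun s hs => h3 s (Or.inl hs)
  have hQ : Q ≤ m * L ^ 2 := by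
    by_contra hcon
    have : ∀ s, Ψ s = 0 := by
      intro s
      by_contra hne
      have e1 := h3' s hne
      have e2 := chg_le hm s
      omega
    have h0 : normSq Ψ = 0 := by
      unfold normSq
      refine Finset.sum_eq_zero fun s _ => ?_
      rw [this s]
      simp
    rw [← nr_sq, hn] at h0
    norm_num at h0
  obtain ⟨ψ₁, p1, n1, s1⟩ := group_proj U hmul hU hψ hn χ hχ
  have p2 := peps_resQ hm hQ p1
  have n2 := resQ_close (Q := Q) (q := q) ψ₁ Ψ h3'
  have s2 : ∀ g, ons (U g) (resQ q Q ψ₁) = χ g • resQ q Q ψ₁ := by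
    intro g
    rw [resQ_ons _ (hUq g), s1 g]
    funext s
    change (if chg q s = Q then (χ g • ψ₁) s else 0) = χ g * (if chg q s = Q then ψ₁ s else 0)
    split_ifs
    · rfl
    · rw [mul_zero]
  obtain ⟨p3, n3, s3⟩ := shift_proj p2 hn θ hθ
  refine ⟨_, p3, n3.trans (n2.trans n1), fun g => ⟨χ g, hχ g, ?_⟩, fun a => ⟨θ a, hθ a, s3 a⟩, Q,
    ?_⟩
  · change ons (U g) _ = _
    rw [ons_sum, Finset.smul_sum]
    refine Finset.sum_congr rfl fun a _ => ?_
    rw [ons_smul, ons_shv, s2 g, smul_comm]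
    rfl
  · rintro s (hs | hs)
    · exact h3' s hs
    · by_contra hne
      apply hs
      rw [Finset.sum_apply]
      refine Finset.sum_eq_zero fun a _ => ?_
      rw [Pi.smul_apply]
      have : shv a (resQ q Q ψ₁) s = 0 := by
        unfold shv resQ
        rw [if_neg]
        rw [chg_shift]
        exact hne
      rw [this, smul_zero]

end Pool.Agent.Q204.SY
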