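import Pool.Agent.Q204.SY.Dir

/-! # Projections onto symmetry sectors -/

set_option autoImplicit false

open scoped BigOperators Matrix
open Finset

namespace Pool.Agent.Q204.SY

open Pool.Agent.TH235.PP Pool.Agent.Q204.TS

variable {d L : ℕ} [NeZero L]

/-! ### finite groups -/

lemma avg_close' {J : Type} [Fintype J] [Nonempty J]
    (T : J → ((Site L → Fin d) → ℂ) → ((Site L → Fin d) → ℂ))
    (hsub : ∀ j f g, T j (f - g) = T j f - T j g) (hT : ∀ j f, nr (T j f) = nr f)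
    (Ψ ψ : (Site L → Fin d) → ℂ) (χ : J → ℂ) (hχ : ∀ j, T j Ψ = χ j • Ψ) (hn : nr Ψ = 1) :
    nr ((∑ j, ((1 / (Fintype.card J : ℂ)) * (starRingEnd ℂ) (χ j)) • T j ψ) - Ψ) ≤ nr (ψ - Ψ) := by
  have hN : (Fintype.card J : ℂ) ≠ 0 := by exact_mod_cast Fintype.card_ne_zero
  have hNr : (Fintype.card J : ℝ) ≠ 0 := by exact_mod_cast Fintype.card_ne_zero
  have hχ1 : ∀ a, ‖χ a‖ = 1 := by
    intro a
    have h1 := hT a Ψ
    rw [hχ a, nr_smul, hn, mul_one] at h1
    exact h1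
  have e1 : (∑ j, ((1 / (Fintype.card J : ℂ)) * (starRingEnd ℂ) (χ j)) • T j ψ) - Ψ =
      ∑ j, ((1 / (Fintype.card J : ℂ)) * (starRingEnd ℂ) (χ j)) • T j (ψ - Ψ) := by
    have e2 : ∑ j, ((1 / (Fintype.card J : ℂ)) * (starRingEnd ℂ) (χ j)) • T j Ψ = Ψ := by
      have : ∀ j, ((1 / (Fintype.card J : ℂ)) * (starRingEnd ℂ) (χ j)) • T j Ψ =
          (1 / (Fintype.card J : ℂ)) • Ψ := by
        intro j
        rw [hχ, smul_smul, mul_assoc, mul_comm ((starRingEnd ℂ) (χ j)), Complex.mul_conj,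
          Complex.normSq_eq_norm_sq, hχ1 j]
        simp
      simp only [this, Finset.sum_const, Finset.card_univ]
      rw [← Nat.cast_smul_eq_nsmul ℂ, smul_smul, mul_one_div_cancel hN, one_smul]
    conv_lhs => rw [← e2]
    rw [← Finset.sum_sub_distrib]
    refine Finset.sum_congr rfl fun a _ => ?_
    rw [hsub, smul_sub]
  rw [e1]
  refine (nr_sum_le _ _).trans (le_of_eq ?_)
  have e3 : ∀ j, nr (((1 / (Fintype.card J : ℂ)) * (starRingEnd ℂ) (χ j)) • T j (ψ - Ψ)) =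
      1 / (Fintype.card J : ℝ) * nr (ψ - Ψ) := by
    intro a
    rw [nr_smul, hT, norm_mul, RCLike.norm_conj, hχ1 a]
    simp
  simp only [e3, Finset.sum_const, Finset.card_univ, nsmul_eq_mul]
  field_simp

/-- the vector after the same one-site operator on every site -/
noncomputable def ons (A : Matrix (Fin d) (Fin d) ℂ) (f : (Site L → Fin d) → ℂ) :
    (Site L → Fin d) → ℂ := tp (V := Site L) (fun _ => A) *ᵥ f

lemma ons_sub (A : Matrix (Fin d) (Fin d) ℂ) (f g : (Site L → Fin d) → ℂ) :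
    ons A (f - g) = ons A f - ons A g := Matrix.mulVec_sub _ _ _

lemma ons_mul (A B : Matrix (Fin d) (Fin d) ℂ) (f : (Site L → Fin d) → ℂ) :
    ons (A * B) f = ons A (ons B f) := by
  unfold ons
  rw [Matrix.mulVec_mulVec, tp_mul]

lemma ons_smul (A : Matrix (Fin d) (Fin d) ℂ) (c : ℂ) (f : (Site L → Fin d) → ℂ) :
    ons A (c • f) = c • ons A f := Matrix.mulVec_smul _ _ _

lemma ons_sum (A : Matrix (Fin d) (Fin d) ℂ) {J : Type} (s : Finset J)
    (f : J → (Site L → Fin d) → ℂ) : ons A (∑ j ∈ s, f j) = ∑ j ∈ s, ons A (f j) :=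
  Matrix.mulVec_sum _ _ _

lemma nr_ons (A : Matrix (Fin d) (Fin d) ℂ) (hA : Aᴴ * A = 1) (f : (Site L → Fin d) → ℂ) :
    nr (ons A f) = nr f := by
  refine nr_unitary _ ?_ f
  rw [tp_star, tp_mul, hA, tp_one]

lemma ons_shv (A : Matrix (Fin d) (Fin d) ℂ) (a : Site L) (f : (Site L → Fin d) → ℂ) :
    ons A (shv a f) = shv a (ons A f) := by
  funext s
  unfold ons shv Matrix.mulVec dotProduct tp
  refine Fintype.sum_equiv (Equiv.arrowCongr (Equiv.subRight a).symm (Equiv.refl (Fin d))) _ _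
    fun t => ?_
  have e1 : ∀ x : Site L, (Equiv.arrowCongr (Equiv.subRight a).symm (Equiv.refl (Fin d))) t x =
      t (x - a) := fun x => rfl
  simp only [e1]
  congr 1
  exact (Equiv.prod_comp (Equiv.subRight a) (fun x => A (s x) (t x))).symm

theorem group_proj {G : Type} [Group G] [Fintype G] (U : G → Matrix (Fin d) (Fin d) ℂ)
    (hmul : ∀ g h, U (g * h) = U g * U h) (hU : ∀ g, (U g)ᴴ * U g = 1) {D : ℕ}
    {ψ Ψ : (Site L → Fin d) → ℂ} (hψ : IsPEPS D ψ) (hn : nr Ψ = 1) (χ : G → ℂ)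
    (hχ : ∀ g, ons (U g) Ψ = χ g • Ψ) :
    ∃ ψ' : (Site L → Fin d) → ℂ, IsPEPS (D * Fintype.card G) ψ' ∧ nr (ψ' - Ψ) ≤ nr (ψ - Ψ) ∧
      ∀ g, ons (U g) ψ' = χ g • ψ' := by
  have hΨ : Ψ ≠ 0 := by
    rintro rfl
    have : nr (0 : (Site L → Fin d) → ℂ) = 0 := by
      have := nr_smul (0 : ℂ) (0 : (Site L → Fin d) → ℂ)
      simpa using this
    rw [this] at hn
    exact zero_ne_one hn
  have hχ1 : ∀ a, ‖χ a‖ = 1 := by
    intro a
    have h1 := nr_ons (U a) (hU a) Ψ
    rw [hχ a, nr_smul, hn, mul_one] at h1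
    exact h1
  have hχm : ∀ g h, χ (g * h) = χ g * χ h := by
    intro g h
    have h1 : χ (g * h) • Ψ = (χ g * χ h) • Ψ := by
      rw [← hχ, hmul, ons_mul, hχ, ons_smul, hχ, smul_smul, mul_comm]
    exact smul_left_injective ℂ hΨ h1
  refine ⟨∑ j, ((1 / (Fintype.card G : ℂ)) * (starRingEnd ℂ) (χ j)) • ons (U j) ψ,
    peps_sum hψ _ _, avg_close' (fun j => ons (U j)) (fun j => ons_sub _) (fun j => nr_ons _ (hU j))
      Ψ ψ χ hχ hn, fun g => ?_⟩
  rw [ons_sum, Finset.smul_sum]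
  refine Fintype.sum_equiv (Equiv.mulLeft g) _ _ fun h => ?_
  rw [Equiv.coe_mulLeft, ons_smul, ← ons_mul, ← hmul, smul_smul, hχm, map_mul]
  congr 1
  have h1 : χ g * (starRingEnd ℂ) (χ g) = 1 := by
    rw [Complex.mul_conj, Complex.normSq_eq_norm_sq, hχ1 g]
    simp
  calc (1 / (Fintype.card G : ℂ)) * (starRingEnd ℂ) (χ h)
      = (χ g * (starRingEnd ℂ) (χ g)) * ((1 / (Fintype.card G : ℂ)) * (starRingEnd ℂ) (χ h)) := by
        rw [h1, one_mul]
    _ = _ := by ring

/-! ### the charge -/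

/-- the total charge of a configuration -/
def chg (q : Fin d → ℕ) (s : Site L → Fin d) : ℕ := ∑ x, q (s x)

/-- the part of the vector with total charge `Q` -/
def resQ (q : Fin d → ℕ) (Q : ℕ) (f : (Site L → Fin d) → ℂ) : (Site L → Fin d) → ℂ :=
  fun s => if chg q s = Q then f s else 0

lemma tp_diag (φ : Fin d → ℂ) (f : (Site L → Fin d) → ℂ) (s : Site L → Fin d) :
    (tp (V := Site L) (fun _ => Matrix.diagonal φ) *ᵥ f) s = (∏ x, φ (s x)) * f s := by
  classical
  unfold Matrix.mulVec dotProduct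
  rw [Finset.sum_eq_single s]
  · congr 1
    unfold tp
    refine Finset.prod_congr rfl fun x _ => ?_
    exact Matrix.diagonal_apply_eq _ _
  · intro t _ hne
    obtain ⟨v, hv⟩ := Function.ne_iff.1 hne
    have : tp (V := Site L) (fun _ => Matrix.diagonal φ) s t = 0 :=
      Finset.prod_eq_zero (mem_univ v) (Matrix.diagonal_apply_ne _ (Ne.symm hv))
    change tp (V := Site L) (fun _ => Matrix.diagonal φ) s t * f t = 0
    rw [this, zero_mul]
  · intro h
    exact absurd (mem_univ _) h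

lemma chg_le {q : Fin d → ℕ} {m : ℕ} (hq : ∀ a, q a ≤ m) (s : Site L → Fin d) :
    chg q s ≤ m * L ^ 2 := by
  unfold chg
  calc ∑ x, q (s x) ≤ ∑ _x : Site L, m := Finset.sum_le_sum fun x _ => hq _
    _ = m * L ^ 2 := by
      rw [Finset.sum_const, Finset.card_univ, Fintype.card_prod, ZMod.card, smul_eq_mul]
      ring

theorem peps_resQ {q : Fin d → ℕ} {m : ℕ} (hq : ∀ a, q a ≤ m) {Q : ℕ} (hQ : Q ≤ m * L ^ 2) {D : ℕ}
    {ψ : (Site L → Fin d) → ℂ} (hψ : IsPEPS D ψ) :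
    IsPEPS (D * (m * L ^ 2 + 1)) (resQ q Q ψ) := by
  set M : ℕ := m * L ^ 2 + 1 with hM
  have hM0 : M ≠ 0 := by omega
  set z : ℂ := Complex.exp (2 * Real.pi * Complex.I / M) with hz
  have hz1 : IsPrimitiveRoot z M := Complex.isPrimitiveRoot_exp M hM0
  have hz0 : z ≠ 0 := Complex.exp_ne_zero _
  have h := peps_sum (J := Fin M) hψ (fun k => (1 / (M : ℂ)) * ((z ^ Q)⁻¹) ^ (k : ℕ))
    (fun k => Matrix.diagonal fun a => z ^ ((k : ℕ) * q a))
  rw [Fintype.card_fin] at h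
  have e : resQ q Q ψ = ∑ k : Fin M, ((1 / (M : ℂ)) * ((z ^ Q)⁻¹) ^ (k : ℕ)) •
      (tp (V := Site L) (fun _ => Matrix.diagonal fun a => z ^ ((k : ℕ) * q a)) *ᵥ ψ) := by
    funext s
    rw [Finset.sum_apply]
    simp only [Pi.smul_apply, smul_eq_mul, tp_diag]
    have e1 : ∀ k : Fin M, ∏ x, z ^ ((k : ℕ) * q (s x)) = (z ^ chg q s) ^ (k : ℕ) := by
      intro k
      rw [Finset.prod_pow_eq_pow_sum, ← Finset.mul_sum, mul_comm, pow_mul]
      rfl
    simp only [e1]
    have e2 : ∀ k : Fin M, 1 / (M : ℂ) * ((z ^ Q)⁻¹) ^ (k : ℕ) * ((z ^ chg q s) ^ (k : ℕ) * ψ s) =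
        1 / (M : ℂ) * ψ s * ((z ^ Q)⁻¹ * z ^ chg q s) ^ (k : ℕ) := by
      intro k
      rw [mul_pow]
      ring
    simp only [e2]
    rw [← Finset.mul_sum, Fin.sum_univ_eq_sum_range (fun k => ((z ^ Q)⁻¹ * z ^ chg q s) ^ k) M]
    unfold resQ
    by_cases hc : chg q s = Q
    · rw [if_pos hc, hc, inv_mul_cancel₀ (pow_ne_zero _ hz0)]
      simp only [one_pow, Finset.sum_const, Finset.card_range, nsmul_eq_mul, mul_one]
      have : (M : ℂ) ≠ 0 := by exact_mod_cast hM0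
      field_simp
    · rw [if_neg hc]
      have hy : (z ^ Q)⁻¹ * z ^ chg q s ≠ 1 := by
        intro hy
        apply hc
        have h2 : z ^ chg q s = z ^ Q := by
          have := congrArg (fun y => z ^ Q * y) hy
          simpa [← mul_assoc, mul_inv_cancel₀ (pow_ne_zero Q hz0)] using this
        exact hz1.pow_inj (by have := chg_le hq s; omega) (by omega) h2
      have hyM : ((z ^ Q)⁻¹ * z ^ chg q s) ^ M = 1 := by
        rw [mul_pow, inv_pow, ← pow_mul, ← pow_mul, mul_comm Q, mul_comm (chg q s), pow_mul,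
          pow_mul, hz1.pow_eq_one, one_pow, one_pow, inv_one, one_mul]
      have h3 := mul_neg_geom_sum ((z ^ Q)⁻¹ * z ^ chg q s) M
      rw [hyM, sub_self] at h3
      have h4 : ∑ k ∈ range M, ((z ^ Q)⁻¹ * z ^ chg q s) ^ k = 0 := by
        rcases mul_eq_zero.1 h3 with h5 | h5
        · exact absurd (sub_eq_zero.1 h5).symm hy
        · exact h5
      rw [h4, mul_zero]
  rw [e]
  exact h

lemma resQ_close {q : Fin d → ℕ} {Q : ℕ} (ψ Ψ : (Site L → Fin d) → ℂ)
    (hΨ : ∀ s, Ψ s ≠ 0 → chg q s = Q) : nr (resQ q Q ψ - Ψ) ≤ nr (ψ - Ψ) := by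
  have h : normSq (resQ q Q ψ - Ψ) ≤ normSq (ψ - Ψ) := by
    unfold normSq
    refine Finset.sum_le_sum fun s _ => ?_
    rw [Pi.sub_apply, Pi.sub_apply]
    unfold resQ
    by_cases hc : chg q s = Q
    · rw [if_pos hc]
    · rw [if_neg hc]
      have : Ψ s = 0 := by
        by_contra hne
        exact hc (hΨ s hne)
      rw [this]
      simp
  rw [← nr_sq, ← nr_sq] at h
  exact (sq_le_sq₀ (nr_nonneg _) (nr_nonneg _)).1 h

lemma resQ_ons {q : Fin d → ℕ} {Q : ℕ} (A : Matrix (Fin d) (Fin d) ℂ)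
    (hA : ∀ a b, A a b ≠ 0 → q a = q b) (ψ : (Site L → Fin d) → ℂ) :
    ons A (resQ q Q ψ) = resQ q Q (ons A ψ) := by
  have hc : ∀ s t : Site L → Fin d, tp (V := Site L) (fun _ => A) s t ≠ 0 → chg q s = chg q t := by
    intro s t h
    unfold tp at h
    rw [Finset.prod_ne_zero_iff] at h
    unfold chg
    exact Finset.sum_congr rfl fun x hx => hA _ _ (h x hx)
  funext s
  unfold resQ ons Matrix.mulVec dotProduct
  by_cases h : chg q s = Q
  · rw [if_pos h]
    refine Finset.sum_congr rfl fun t _ => ?_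
    change tp (V := Site L) (fun _ => A) s t * (if chg q t = Q then ψ t else 0) =
      tp (V := Site L) (fun _ => A) s t * ψ t
    by_cases h2 : tp (V := Site L) (fun _ => A) s t = 0
    · rw [h2, zero_mul, zero_mul]
    · rw [if_pos ((hc s t h2).symm.trans h)]
  · rw [if_neg h]
    refine Finset.sum_eq_zero fun t _ => ?_
    change tp (V := Site L) (fun _ => A) s t * (if chg q t = Q then ψ t else 0) = 0
    by_cases h2 : tp (V := Site L) (fun _ => A) s t = 0
    · rw [h2, zero_mul]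
    · rw [if_neg (fun h3 => h ((hc s t h2).trans h3)), mul_zero]

lemma chg_shift (q : Fin d → ℕ) (a : Site L) (s : Site L → Fin d) :
    chg q (fun x => s (x - a)) = chg q s :=
  Equiv.sum_comp (Equiv.subRight a) (fun x => q (s x))

/-! ### translations -/

lemma shv_add (a b : Site L) (f : (Site L → Fin d) → ℂ) : shv a (shv b f) = shv (a + b) f := by
  funext s
  unfold shv
  congr 1
  funext x
  change s (x - b - a) = s (x - (a + b))
  rw [sub_sub, add_comm b a]

theorem shift_proj {D : ℕ} {ψ Ψ : (Site L → Fin d) → ℂ} (hψ : IsPEPS D ψ) (hn : nr Ψ = 1)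
    (χ : Site L → ℂ) (hχ : ∀ a, shv a Ψ = χ a • Ψ) :
    IsTIButOne (D * L ^ 2) (∑ a, ((1 / (Fintype.card (Site L) : ℂ)) * (starRingEnd ℂ) (χ a)) •
      shv a ψ) ∧
    nr ((∑ a, ((1 / (Fintype.card (Site L) : ℂ)) * (starRingEnd ℂ) (χ a)) • shv a ψ) - Ψ) ≤
      nr (ψ - Ψ) ∧
    ∀ b, shv b (∑ a, ((1 / (Fintype.card (Site L) : ℂ)) * (starRingEnd ℂ) (χ a)) • shv a ψ) =
      χ b • ∑ a, ((1 / (Fintype.card (Site L) : ℂ)) * (starRingEnd ℂ) (χ a)) • shv a ψ := by
  have hΨ : Ψ ≠ 0 := by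
    rintro rfl
    have : nr (0 : (Site L → Fin d) → ℂ) = 0 := by
      have := nr_smul (0 : ℂ) (0 : (Site L → Fin d) → ℂ)
      simpa using this
    rw [this] at hn
    exact zero_ne_one hn
  have hχ1 : ∀ a, ‖χ a‖ = 1 := by
    intro a
    have h1 := nr_shv a Ψ
    rw [hχ a, nr_smul, hn, mul_one] at h1
    exact h1
  have hχm : ∀ a b, χ (a + b) = χ a * χ b := by
    intro a b
    have h1 : χ (a + b) • Ψ = (χ a * χ b) • Ψ := by
      rw [← hχ, ← shv_add, hχ b]
      have : shv a (χ b • Ψ) = χ b • shv a Ψ := rfl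
      rw [this, hχ, smul_smul, mul_comm]
    exact smul_left_injective ℂ hΨ h1
  refine ⟨?_, avg_close' (fun a => shv a) (fun a => shv_sub a) (fun a => nr_shv a) Ψ ψ χ hχ hn,
    fun b => ?_⟩
  · obtain ⟨C, hC⟩ := hψ
    set φ : Site L → ℂ := fun a => (1 / (Fintype.card (Site L) : ℂ)) * (starRingEnd ℂ) (χ a) with hφ
    have e1 : contract (symT C fun x p => if x = 0 then φ p else 1) =
        ∑ a : Site L, φ a • shv a ψ := by
      rw [contract_symT']
      refine Finset.sum_congr rfl fun a _ => ?_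
      rw [hC]
      congr 1
      rw [Finset.prod_ite_eq' Finset.univ (0 : Site L) (fun x => φ (x + a))]
      simp
    change IsTIButOne (D * L ^ 2) (∑ a : Site L, φ a • shv a ψ)
    rw [← e1, contract_equiv (Fintype.equivFinOfCardEq (card_KS D))]
    set e := Fintype.equivFinOfCardEq (card_KS (L := L) D)
    refine ⟨fun a l r dn up => symT C (fun _ _ => 1) 0 a (e.symm l) (e.symm r) (e.symm dn)
      (e.symm up), fun a l r dn up => symT C (fun _ p => φ p) 0 a (e.symm l) (e.symm r)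
      (e.symm dn) (e.symm up), ?_⟩
    congr 1
    funext x
    by_cases hx : x = 0
    · rw [if_pos hx]
      unfold symT
      simp only [if_pos hx]
    · rw [if_neg hx]
      unfold symT
      simp only [if_neg hx]
  · have hs : shv b (∑ a, ((1 / (Fintype.card (Site L) : ℂ)) * (starRingEnd ℂ) (χ a)) •
        shv a ψ) = ∑ a, ((1 / (Fintype.card (Site L) : ℂ)) * (starRingEnd ℂ) (χ a)) •
        shv (b + a) ψ := by
      funext s
      have : shv b (∑ a, ((1 / (Fintype.card (Site L) : ℂ)) * (starRingEnd ℂ) (χ a)) •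
        shv a ψ) s = (∑ a, ((1 / (Fintype.card (Site L) : ℂ)) * (starRingEnd ℂ) (χ a)) •
        shv a ψ) (fun x => s (x - b)) := rfl
      rw [this, Finset.sum_apply, Finset.sum_apply]
      refine Finset.sum_congr rfl fun a _ => ?_
      rw [← shv_add]
      rfl
    rw [hs, Finset.smul_sum]
    refine Fintype.sum_equiv (Equiv.addLeft b) _ _ fun a => ?_
    rw [Equiv.coe_addLeft, smul_smul, hχm, map_mul]
    congr 1
    have h1 : χ b * (starRingEnd ℂ) (χ b) = 1 := by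
      rw [Complex.mul_conj, Complex.normSq_eq_norm_sq, hχ1 b]
      simp
    calc (1 / (Fintype.card (Site L) : ℂ)) * (starRingEnd ℂ) (χ a)
        = (χ b * (starRingEnd ℂ) (χ b)) * ((1 / (Fintype.card (Site L) : ℂ)) *
          (starRingEnd ℂ) (χ a)) := by rw [h1, one_mul]
      _ = _ := by ring

end Pool.Agent.Q204.SY
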